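import Mathlib

set_option autoImplicit false

namespace Pool.Agent.Results.MP_f664e7_co.SignStatistic

open List

/-- A (linear) permutation: a word of distinct positive integers. -/
def IsPerm (π : List ℕ) : Prop := π.Nodup ∧ ∀ x ∈ π, 0 < x

/-- Two words have the same relative order (the same standardization). -/
def SameOrder (π σ : List ℕ) : Prop :=
  π.length = σ.length ∧
    ∀ (i j : ℕ) (hi : i < π.length) (hj : j < π.length) (hi' : i < σ.length) (hj' : j < σ.length),
      (π[i] < π[j] ↔ σ[i] < σ[j])

/-- A cyclic permutation statistic: a function on cyclic words (Mathlib's `Cycle ℕ`, lists up to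
rotation) whose value at `[π]` depends only on the relative order of the permutation `π`. -/
def IsCyclicStatistic {β : Type} (cst : Cycle ℕ → β) : Prop :=
  ∀ π σ : List ℕ, IsPerm π → IsPerm σ → SameOrder π σ →
    cst (π : Cycle ℕ) = cst (σ : Cycle ℕ)

open Classical in
/-- The finite set of cyclic shuffles of `[π]` and `[σ]`, for disjoint permutations `π`, `σ`:
the cyclic permutations `[τ]`, where `τ` is a rearrangement of the letters of `π` and `σ` that
contains some rotation of `π` and some rotation of `σ` as subsequences. -/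
noncomputable def cyclicShuffles (π σ : List ℕ) : Finset (Cycle ℕ) :=
  Finset.image (fun τ : List ℕ => (τ : Cycle ℕ))
    (Finset.filter
      (fun τ : List ℕ => (∃ k, (π.rotate k).Sublist τ) ∧ (∃ k, (σ.rotate k).Sublist τ))
      (π ++ σ).permutations.toFinset)

/-- The distribution of `cst` over the cyclic shuffles of `[π]` and `[σ]`, a multiset. -/
noncomputable def distribution {β : Type} (cst : Cycle ℕ → β) (π σ : List ℕ) : Multiset β :=
  (cyclicShuffles π σ).val.map cst

/-- Cyclic shuffle-compatibility. -/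
def CyclicShuffleCompatible {β : Type} (cst : Cycle ℕ → β) : Prop :=
  ∀ π σ π' σ' : List ℕ, IsPerm π → IsPerm σ → IsPerm π' → IsPerm σ' →
    π.Disjoint σ → π'.Disjoint σ' → π.length = π'.length → σ.length = σ'.length →
    cst (π : Cycle ℕ) = cst (π' : Cycle ℕ) → cst (σ : Cycle ℕ) = cst (σ' : Cycle ℕ) →
    distribution cst π σ = distribution cst π' σ'

/-- The cyclic descent set of a word, positions being numbered `0, …, n-1` (cyclically). -/
def cDes (π : List ℕ) : Finset ℕ :=
  (Finset.range π.length).filter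
    (fun i => π.getD ((i + 1) % π.length) 0 < π.getD i 0)

/-- The cyclic descent set of the cyclic permutation `[π]`: the multiset of the cyclic descent
sets of the rotations of `π`. -/
def cDesCyc (π : List ℕ) : Multiset (Finset ℕ) :=
  (Multiset.range π.length).map (fun k => cDes (π.rotate k))

/-- A cyclic descent statistic: its value is determined by the length and the cyclic descent
multiset of the cyclic permutation. -/
def IsCyclicDescentStatistic {β : Type} (cst : Cycle ℕ → β) : Prop :=
  ∀ π σ : List ℕ, IsPerm π → IsPerm σ → π.length = σ.length →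
    cDesCyc π = cDesCyc σ → cst (π : Cycle ℕ) = cst (σ : Cycle ℕ)

/-! ### The sign of a word -/

/-- sign of the sorting permutation of a tuple -/
def sgnF {N : ℕ} (f : Fin N → ℕ) : ℤˣ := Equiv.Perm.sign (Tuple.sort f)

/-- sign of a word -/
def sgn (l : List ℕ) : ℤˣ := sgnF l.get

lemma sgn_eq (l : List ℕ) (N : ℕ) (h : l.length = N) :
    sgn l = sgnF (fun i : Fin N => l.get (i.cast h.symm)) := by
  subst h; rfl

lemma sort_unique {N : ℕ} (f : Fin N → ℕ) (hf : Function.Injective f) (e : Equiv.Perm (Fin N))
    (he : Monotone (f ∘ e)) : Tuple.sort f = e := by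
  have h1 := Tuple.unique_monotone (Tuple.monotone_sort f) he
  ext i : 1
  exact hf (congrFun h1 i)

lemma sgnF_comp {N : ℕ} (f : Fin N → ℕ) (hf : Function.Injective f) (p : Equiv.Perm (Fin N)) :
    sgnF (f ∘ p) = Equiv.Perm.sign p * sgnF f := by
  unfold sgnF
  have h1 : Tuple.sort (f ∘ p) = p⁻¹ * Tuple.sort f := by
    apply sort_unique
    · exact hf.comp p.injective
    · have h2 := Tuple.monotone_sort f
      have h3 : (f ∘ p) ∘ (p⁻¹ * Tuple.sort f : Equiv.Perm (Fin N)) = f ∘ Tuple.sort f := by
        funext i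
        simp
      rw [h3]; exact h2
  rw [h1, Equiv.Perm.sign_mul, Equiv.Perm.sign_inv]

lemma get_injective (l : List ℕ) (h : l.Nodup) : Function.Injective l.get :=
  List.nodup_iff_injective_get.1 h

lemma sgn_rotate_one (l : List ℕ) (h : l.Nodup) (n : ℕ) (hn : l.length = n + 1) :
    sgn (l.rotate 1) = (-1) ^ n * sgn l := by
  rw [sgn_eq (l.rotate 1) (n + 1) (by rw [List.length_rotate, hn]), sgn_eq l (n + 1) hn]
  have h1 : (fun i : Fin (n + 1) => (l.rotate 1).get (i.cast (by rw [List.length_rotate, hn]))) =
      (fun i : Fin (n + 1) => l.get (i.cast hn.symm)) ∘ (finRotate (n + 1)) := by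
    funext i
    simp only [List.get_eq_getElem, Function.comp, List.getElem_rotate, Fin.val_cast, hn]
    congr 1
    rw [finRotate_apply, Fin.val_add]
    simp
  rw [h1, sgnF_comp _ ?_, sign_finRotate, Nat.add_sub_cancel]
  intro i j hij
  have := get_injective l h hij
  simpa using this

lemma sgn_rotate_odd (l : List ℕ) (h : l.Nodup) (ho : Odd l.length) (k : ℕ) :
    sgn (l.rotate k) = sgn l := by
  induction k with
  | zero => rw [List.rotate_zero]
  | succ k ih =>
    rw [← List.rotate_rotate, ← ih]
    obtain ⟨m, hm⟩ := ho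
    rw [sgn_rotate_one (l.rotate k) (List.nodup_rotate.2 h) (2 * m) (by rw [List.length_rotate, hm]),
      pow_mul]
    simp

lemma sgn_swap (l : List ℕ) (h : l.Nodup) (a b : ℕ) (ha : a ∈ l) (hb : b ∈ l) (hab : a ≠ b) :
    sgn (l.map (Equiv.swap a b)) = - sgn l := by
  rw [sgn_eq (l.map (Equiv.swap a b)) l.length (by rw [List.length_map])]
  obtain ⟨i, rfl⟩ := List.mem_iff_get.1 ha
  obtain ⟨j, rfl⟩ := List.mem_iff_get.1 hb
  have hinj := get_injective l h
  have hij : i ≠ j := fun h => hab (by rw [h])
  have h1 : (fun z : Fin l.length => (l.map (Equiv.swap (l.get i) (l.get j))).get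
      (z.cast (by rw [List.length_map]))) = l.get ∘ (Equiv.swap i j) := by
    funext z
    simp only [List.get_eq_getElem, List.getElem_map, Fin.val_cast, Function.comp]
    have := hinj.swap_apply i j z
    simpa using this
  rw [h1, sgnF_comp _ hinj, Equiv.Perm.sign_swap hij]
  unfold sgn
  simp

lemma map_swap_perm (l : List ℕ) (h : l.Nodup) (a b : ℕ) (ha : a ∈ l) (hb : b ∈ l) :
    (l.map (Equiv.swap a b)).Perm l := by
  rw [List.perm_ext_iff_of_nodup (h.map (Equiv.injective _)) h]
  intro z
  rw [List.mem_map]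
  constructor
  · rintro ⟨w, hw, rfl⟩
    rcases Equiv.swap_apply_def a b w with h1
    rw [h1]
    split_ifs
    · exact hb
    · exact ha
    · exact hw
  · intro hz
    refine ⟨Equiv.swap a b z, ?_, Equiv.swap_apply_self a b z⟩
    rw [Equiv.swap_apply_def]
    split_ifs
    · exact hb
    · exact ha
    · exact hz

lemma formPerm_sgn (σ : List ℕ) : ∀ (l : List ℕ), l.Nodup → σ.Nodup → (∀ x ∈ σ, x ∈ l) → σ ≠ [] →
    sgn (l.map (List.formPerm σ)) = (-1) ^ (σ.length - 1) * sgn l ∧
      (l.map (List.formPerm σ)).Perm l := by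
  induction σ with
  | nil => intro l _ _ _ h; exact absurd rfl h
  | cons x σ ih =>
    intro l hl hσ hsub _
    cases σ with
    | nil =>
      rw [List.formPerm_singleton]
      simp
    | cons y σ =>
      obtain ⟨h1, h2⟩ := ih l hl (List.nodup_cons.1 hσ).2
        (fun z hz => hsub z (List.mem_cons_of_mem _ hz)) (by simp)
      have h3 : l.map (List.formPerm (x :: y :: σ)) =
          (l.map (List.formPerm (y :: σ))).map (Equiv.swap x y) := by
        rw [List.map_map, List.formPerm_cons_cons]
        rfl
      have hnd : (l.map (List.formPerm (y :: σ))).Nodup := hl.map (Equiv.injective _)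
      have hx : x ∈ l.map (List.formPerm (y :: σ)) := h2.mem_iff.2 (hsub x (by simp))
      have hy : y ∈ l.map (List.formPerm (y :: σ)) := h2.mem_iff.2 (hsub y (by simp))
      have hxy : x ≠ y := by
        intro h
        exact (List.nodup_cons.1 hσ).1 (by rw [h]; simp)
      rw [h3]
      constructor
      · rw [sgn_swap _ hnd x y hx hy hxy, h1]
        simp only [List.length_cons, Nat.add_sub_cancel]
        rw [pow_succ]
        simp
      · exact (map_swap_perm _ hnd x y hx hy).trans h2

lemma map_formPerm_self (σ : List ℕ) (h : σ.Nodup) : σ.map (List.formPerm σ) = σ.rotate 1 := by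
  apply List.ext_getElem
  · rw [List.length_map, List.length_rotate]
  · intro i h1 h2
    rw [List.getElem_map, List.getElem_rotate, List.formPerm_apply_getElem _ h]

/-! ### The statistic -/

open Classical in
/-- The statistic on words. -/
noncomputable def cstList (l : List ℕ) : ℤ :=
  if Odd l.length ∧ l.Nodup then ((sgn l : ℤˣ) : ℤ) else 0

lemma cstList_rotated (l l' : List ℕ) (h : l.IsRotated l') : cstList l = cstList l' := by
  obtain ⟨k, rfl⟩ := h
  unfold cstList
  by_cases h1 : Odd l.length ∧ l.Nodup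
  · rw [if_pos h1, if_pos ⟨by rw [List.length_rotate]; exact h1.1, List.nodup_rotate.2 h1.2⟩,
      sgn_rotate_odd l h1.2 h1.1]
  · rw [if_neg h1, if_neg]
    rintro ⟨h2, h3⟩
    exact h1 ⟨by rwa [List.length_rotate] at h2, List.nodup_rotate.1 h3⟩

/-- The statistic: the sign of the word if its length is odd, and `0` otherwise. -/
noncomputable def cst (c : Cycle ℕ) : ℤ :=
  Quotient.lift (s := List.IsRotated.setoid ℕ) cstList (fun a b h => cstList_rotated a b h) c

lemma cst_coe (l : List ℕ) : cst (l : Cycle ℕ) = cstList l := rfl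

lemma isCyclicStatistic_cst : IsCyclicStatistic cst := by
  intro π σ hπ hσ h
  obtain ⟨hlen, h⟩ := h
  rw [cst_coe, cst_coe]
  unfold cstList
  rw [hlen]
  by_cases ho : Odd σ.length
  · rw [if_pos ⟨ho, hπ.1⟩, if_pos ⟨ho, hσ.1⟩]
    congr 1
    rw [sgn_eq π σ.length hlen]
    unfold sgn sgnF
    congr 1
    apply sort_unique
    · intro i j hij
      have := get_injective π hπ.1 hij
      simpa using this
    · have h1 := Tuple.monotone_sort σ.get
      intro i j hij
      have h2 := h1 hij
      simp only [Function.comp, List.get_eq_getElem, Fin.val_cast] at h2 ⊢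
      by_contra hcon
      rw [not_le] at hcon
      have h3 := (h _ _ (by rw [hlen]; exact (Tuple.sort σ.get j).isLt)
        (by rw [hlen]; exact (Tuple.sort σ.get i).isLt)
        (Tuple.sort σ.get j).isLt (Tuple.sort σ.get i).isLt).1 hcon
      omega
  · rw [if_neg (fun h => ho h.1), if_neg (fun h => ho h.1)]

/-! ### Shuffles -/

lemma mem_shuffles (π σ : List ℕ) (c : Cycle ℕ) : c ∈ cyclicShuffles π σ ↔
    ∃ τ : List ℕ, τ.Perm (π ++ σ) ∧ (∃ k, (π.rotate k).Sublist τ) ∧ (∃ k, (σ.rotate k).Sublist τ) ∧
      (τ : Cycle ℕ) = c := by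
  unfold cyclicShuffles
  simp only [Finset.mem_image, Finset.mem_filter, List.mem_toFinset, List.mem_permutations]
  constructor
  · rintro ⟨τ, ⟨h1, h2, h3⟩, h4⟩
    exact ⟨τ, h1, h2, h3, h4⟩
  · rintro ⟨τ, h1, h2, h3, h4⟩
    exact ⟨τ, ⟨h1, h2, h3⟩, h4⟩

lemma shuffles_comm (π σ : List ℕ) : cyclicShuffles π σ = cyclicShuffles σ π := by
  ext c
  rw [mem_shuffles, mem_shuffles]
  constructor
  · rintro ⟨τ, h1, h2, h3, h4⟩
    exact ⟨τ, h1.trans List.perm_append_comm, h3, h2, h4⟩
  · rintro ⟨τ, h1, h2, h3, h4⟩
    exact ⟨τ, h1.trans List.perm_append_comm, h3, h2, h4⟩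

/-- the relabelling map -/
def relabel (l l' : List ℕ) (x : ℕ) : ℕ := l'.getD (l.idxOf x) 0

lemma map_relabel (l l' : List ℕ) (h : l.Nodup) (hlen : l.length = l'.length) :
    l.map (relabel l l') = l' := by
  apply List.ext_getElem
  · rw [List.length_map, hlen]
  · intro i h1 h2
    rw [List.getElem_map]
    unfold relabel
    rw [List.Nodup.idxOf_getElem h]
    exact (List.getElem_eq_getD 0).symm

lemma relabel_relabel (l l' : List ℕ) (h : l.Nodup) (h' : l'.Nodup) (hlen : l.length = l'.length)
    (x : ℕ) (hx : x ∈ l) : relabel l' l (relabel l l' x) = x := by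
  obtain ⟨i, hi, rfl⟩ := List.mem_iff_getElem.1 hx
  have h1 : relabel l l' l[i] = l'[i]'(by omega) := by
    unfold relabel
    rw [List.Nodup.idxOf_getElem h]
    exact (List.getElem_eq_getD 0).symm
  rw [h1]
  unfold relabel
  rw [List.Nodup.idxOf_getElem h']
  exact (List.getElem_eq_getD 0).symm

lemma card_le (π σ π' σ' : List ℕ) (hl : (π ++ σ).Nodup) (hl' : (π' ++ σ').Nodup)
    (h1 : π.length = π'.length) (h2 : σ.length = σ'.length) :
    (cyclicShuffles π σ).card ≤ (cyclicShuffles π' σ').card := by
  have hlen : (π ++ σ).length = (π' ++ σ').length := by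
    rw [List.length_append, List.length_append, h1, h2]
  set g := relabel (π ++ σ) (π' ++ σ') with hg
  have hmap := map_relabel (π ++ σ) (π' ++ σ') hl hlen
  rw [← hg, List.map_append] at hmap
  obtain ⟨hm1, hm2⟩ := List.append_inj hmap (by rw [List.length_map, h1])
  apply Finset.card_le_card_of_injOn (fun c => Cycle.map g c)
  · intro c hc
    rw [Finset.mem_coe, mem_shuffles] at hc
    obtain ⟨τ, ht1, ⟨k, ht2⟩, ⟨k', ht3⟩, rfl⟩ := hc
    rw [Finset.mem_coe, mem_shuffles]
    refine ⟨τ.map g, ?_, ⟨k, ?_⟩, ⟨k', ?_⟩, rfl⟩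
    · have := ht1.map g
      rwa [List.map_append, hm1, hm2] at this
    · have := ht2.map g
      rwa [List.map_rotate, hm1] at this
    · have := ht3.map g
      rwa [List.map_rotate, hm2] at this
  · intro c hc c' hc' hcc
    rw [Finset.mem_coe, mem_shuffles] at hc hc'
    obtain ⟨τ, ht1, _, _, rfl⟩ := hc
    obtain ⟨τ', ht1', _, _, rfl⟩ := hc'
    have h3 := congrArg (Cycle.map (relabel (π' ++ σ') (π ++ σ))) hcc
    simp only [Cycle.map_coe, List.map_map] at h3
    have h4 : ∀ τ : List ℕ, τ.Perm (π ++ σ) →
        τ.map (relabel (π' ++ σ') (π ++ σ) ∘ g) = τ := by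
      intro τ ht
      conv_rhs => rw [← List.map_id τ]
      apply List.map_congr_left
      intro x hx
      exact relabel_relabel _ _ hl hl' hlen x (ht.mem_iff.1 hx)
    rwa [h4 τ ht1, h4 τ' ht1'] at h3

lemma card_eq (π σ π' σ' : List ℕ) (hl : (π ++ σ).Nodup) (hl' : (π' ++ σ').Nodup)
    (h1 : π.length = π'.length) (h2 : σ.length = σ'.length) :
    (cyclicShuffles π σ).card = (cyclicShuffles π' σ').card :=
  le_antisymm (card_le π σ π' σ' hl hl' h1 h2) (card_le π' σ' π σ hl' hl h1.symm h2.symm)

/-- Rotating the letters of `σ` maps the set of shuffles to itself and reverses the statistic. -/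
lemma flip (π σ : List ℕ) (hl : (π ++ σ).Nodup) (ho : Odd (π ++ σ).length)
    (he : Even σ.length) (hne : σ ≠ []) (c : Cycle ℕ) (hc : c ∈ cyclicShuffles π σ) :
    Cycle.map (List.formPerm σ) c ∈ cyclicShuffles π σ ∧
      cst (Cycle.map (List.formPerm σ) c) = - cst c := by
  rw [mem_shuffles] at hc
  obtain ⟨τ, ht1, ⟨k, ht2⟩, ⟨k', ht3⟩, rfl⟩ := hc
  have hσ : σ.Nodup := (List.nodup_append.1 hl).2.1
  have hτ : τ.Nodup := ht1.nodup_iff.2 hl
  have hdis : π.Disjoint σ := by
    intro x hx hx'
    exact (List.nodup_append.1 hl).2.2 x hx x hx' rfl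
  obtain ⟨hs1, hs2⟩ := formPerm_sgn σ τ hτ hσ
    (fun x hx => ht1.mem_iff.2 (List.mem_append_right _ hx)) hne
  constructor
  · rw [mem_shuffles]
    refine ⟨τ.map (List.formPerm σ), hs2.trans ht1, ⟨k, ?_⟩, ⟨1 + k', ?_⟩, rfl⟩
    · have h1 := ht2.map (List.formPerm σ)
      have h2 : π.map (List.formPerm σ) = π := by
        conv_rhs => rw [← List.map_id π]
        apply List.map_congr_left
        intro x hx
        exact List.formPerm_apply_of_notMem (fun hx' => hdis hx hx')
      rwa [List.map_rotate, h2] at h1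
    · have h1 := ht3.map (List.formPerm σ)
      rwa [List.map_rotate, map_formPerm_self σ hσ, List.rotate_rotate] at h1
  · rw [Cycle.map_coe, cst_coe, cst_coe]
    unfold cstList
    have hlen : τ.length = (π ++ σ).length := ht1.length_eq
    have c1 : Odd τ.length ∧ τ.Nodup := ⟨by rw [hlen]; exact ho, hτ⟩
    have c2 : Odd (τ.map (List.formPerm σ)).length ∧ (τ.map (List.formPerm σ)).Nodup :=
      ⟨by rw [List.length_map, hlen]; exact ho, hτ.map (Equiv.injective _)⟩
    rw [if_pos c1, if_pos c2, hs1]
    have hpos : 0 < σ.length := List.length_pos_of_ne_nil hne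
    have hodd : Odd (σ.length - 1) := by
      obtain ⟨r, hr⟩ := he
      exact ⟨r - 1, by omega⟩
    rw [hodd.neg_one_pow]
    simp

lemma count_flip (π σ : List ℕ) (hl : (π ++ σ).Nodup) (ho : Odd (π ++ σ).length)
    (he : Even σ.length) (hne : σ ≠ []) (v : ℤ) :
    (distribution cst π σ).count v = (distribution cst π σ).count (-v) := by
  unfold distribution
  classical
  have key : ∀ v : ℤ, ((cyclicShuffles π σ).filter (fun c => v = cst c)).card ≤
      ((cyclicShuffles π σ).filter (fun c => -v = cst c)).card := by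
    intro v
    apply Finset.card_le_card_of_injOn (fun c => Cycle.map (List.formPerm σ) c)
    · intro c hc
      rw [Finset.mem_coe, Finset.mem_filter] at hc ⊢
      obtain ⟨h1, h2⟩ := flip π σ hl ho he hne c hc.1
      exact ⟨h1, by rw [h2, hc.2]⟩
    · intro c hc c' hc' hcc
      have h3 := congrArg (Cycle.map (List.formPerm σ).symm) hcc
      obtain ⟨τ, rfl⟩ := Quotient.exists_rep c
      obtain ⟨τ', rfl⟩ := Quotient.exists_rep c'
      change ((((τ.map (List.formPerm σ)).map (List.formPerm σ).symm) : List ℕ) : Cycle ℕ) =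
        ((((τ'.map (List.formPerm σ)).map (List.formPerm σ).symm) : List ℕ) : Cycle ℕ) at h3
      simpa using h3
  rw [Multiset.count_map, Multiset.count_map]
  have h1 := key v
  have h2 := key (-v)
  rw [neg_neg] at h2
  exact le_antisymm h1 h2

lemma cst_values (π σ : List ℕ) (hl : (π ++ σ).Nodup) (ho : Odd (π ++ σ).length) (c : Cycle ℕ)
    (hc : c ∈ cyclicShuffles π σ) : cst c = 1 ∨ cst c = -1 := by
  rw [mem_shuffles] at hc
  obtain ⟨τ, ht1, _, _, rfl⟩ := hc
  rw [cst_coe]
  unfold cstList
  rw [if_pos ⟨by rw [ht1.length_eq]; exact ho, ht1.nodup_iff.2 hl⟩]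
  rcases Int.units_eq_one_or (sgn τ) with h | h
  · left; rw [h]; rfl
  · right; rw [h]; rfl

lemma dist_eq_aux (π σ : List ℕ) (hl : (π ++ σ).Nodup) (ho : Odd (π ++ σ).length)
    (hflip : ∀ v : ℤ, (distribution cst π σ).count v = (distribution cst π σ).count (-v)) (v : ℤ) :
    2 * (distribution cst π σ).count v =
      if v = 1 ∨ v = -1 then (cyclicShuffles π σ).card else 0 := by
  have hmem : ∀ w ∈ distribution cst π σ, w = 1 ∨ w = -1 := by
    intro w hw
    unfold distribution at hw
    rw [Multiset.mem_map] at hw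
    obtain ⟨c, hc, rfl⟩ := hw
    exact cst_values π σ hl ho c hc
  have hcard : Multiset.card (distribution cst π σ) = (cyclicShuffles π σ).card := by
    unfold distribution
    rw [Multiset.card_map]; rfl
  have hsum : (distribution cst π σ).count 1 + (distribution cst π σ).count (-1) =
      (cyclicShuffles π σ).card := by
    rw [← hcard]
    have h1 : distribution cst π σ = (distribution cst π σ).filter (fun w => w = 1) +
        (distribution cst π σ).filter (fun w => ¬ w = 1) :=
      (Multiset.filter_add_not _ _).symm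
    have h2 : (distribution cst π σ).filter (fun w => ¬ w = 1) =
        (distribution cst π σ).filter (fun w => w = -1) := by
      apply Multiset.filter_congr
      intro w hw
      rcases hmem w hw with h | h
      · subst h; decide
      · subst h; decide
    rw [h2] at h1
    have h3 := congrArg Multiset.card h1
    rw [Multiset.card_add, ← Multiset.countP_eq_card_filter, ← Multiset.countP_eq_card_filter] at h3
    rw [h3]
    unfold Multiset.count
    congr 1
    · apply Multiset.countP_congr rfl
      intro w _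
      simp [eq_comm]
    · apply Multiset.countP_congr rfl
      intro w _
      simp [eq_comm]
  split_ifs with h
  · rcases h with rfl | rfl
    · have := hflip 1
      omega
    · have := hflip 1
      omega
  · rw [Multiset.count_eq_zero_of_notMem]
    intro hv
    exact h (hmem v hv)

lemma dist_even (π σ : List ℕ) (he : ¬ Odd (π ++ σ).length) :
    distribution cst π σ = Multiset.replicate (cyclicShuffles π σ).card 0 := by
  unfold distribution
  rw [Multiset.eq_replicate]
  constructor
  · rw [Multiset.card_map]; rfl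
  · intro w hw
    rw [Multiset.mem_map] at hw
    obtain ⟨c, hc, rfl⟩ := hw
    have hc' : c ∈ cyclicShuffles π σ := hc
    rw [mem_shuffles] at hc'
    obtain ⟨τ, ht1, _, _, rfl⟩ := hc'
    rw [cst_coe]
    unfold cstList
    rw [if_neg]
    rintro ⟨h, _⟩
    rw [ht1.length_eq] at h
    exact he h

lemma shuffles_nil (π : List ℕ) : cyclicShuffles π [] = {(π : Cycle ℕ)} := by
  ext c
  rw [mem_shuffles, Finset.mem_singleton]
  constructor
  · rintro ⟨τ, h1, ⟨k, h2⟩, _, rfl⟩
    rw [List.append_nil] at h1
    have h3 : π.rotate k = τ := h2.eq_of_length (by rw [List.length_rotate, h1.length_eq])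
    rw [← h3]
    exact (Cycle.coe_eq_coe.2 ⟨k, rfl⟩).symm
  · rintro rfl
    refine ⟨π, by rw [List.append_nil], ⟨0, by rw [List.rotate_zero]⟩, ⟨0, by simp⟩, rfl⟩

lemma compatible_cst : CyclicShuffleCompatible cst := by
  intro π σ π' σ' hπ hσ hπ' hσ' hd hd' h1 h2 hc1 hc2
  have hl : (π ++ σ).Nodup := List.nodup_append.2 ⟨hπ.1, hσ.1, fun x hx y hy hxy =>
    hd hx (by rw [hxy]; exact hy)⟩
  have hl' : (π' ++ σ').Nodup := List.nodup_append.2 ⟨hπ'.1, hσ'.1, fun x hx y hy hxy =>
    hd' hx (by rw [hxy]; exact hy)⟩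
  have hcard := card_eq π σ π' σ' hl hl' h1 h2
  have hlen : (π ++ σ).length = (π' ++ σ').length := by
    rw [List.length_append, List.length_append, h1, h2]
  by_cases ho : Odd (π ++ σ).length
  · by_cases hσ0 : σ = []
    · subst hσ0
      have hσ0' : σ' = [] := List.length_eq_zero_iff.1 h2.symm
      subst hσ0'
      unfold distribution
      rw [shuffles_nil, shuffles_nil]
      simp [hc1]
    by_cases hπ0 : π = []
    · subst hπ0
      have hπ0' : π' = [] := List.length_eq_zero_iff.1 h1.symm
      subst hπ0'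
      unfold distribution
      rw [shuffles_comm, shuffles_comm [] σ', shuffles_nil, shuffles_nil]
      simp [hc2]
    · have hσ0' : σ' ≠ [] := fun h => hσ0 (List.length_eq_zero_iff.1 (by rw [h2, h]; rfl))
      have hπ0' : π' ≠ [] := fun h => hπ0 (List.length_eq_zero_iff.1 (by rw [h1, h]; rfl))
      have ho' : Odd (π' ++ σ').length := by rw [← hlen]; exact ho
      have hflip : ∀ (π σ : List ℕ), (π ++ σ).Nodup → Odd (π ++ σ).length → σ ≠ [] → π ≠ [] →
          ∀ v : ℤ, (distribution cst π σ).count v = (distribution cst π σ).count (-v) := by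
        intro π σ hl ho hσ hπ v
        rcases Nat.even_or_odd σ.length with he | he
        · exact count_flip π σ hl ho he hσ v
        · have he' : Even π.length := by
            rw [List.length_append, Nat.odd_add'] at ho
            exact ho.1 he
          have hl2 : (σ ++ π).Nodup := List.perm_append_comm.nodup_iff.1 hl
          have ho2 : Odd (σ ++ π).length := by
            rw [List.length_append, add_comm, ← List.length_append]; exact ho
          have := count_flip σ π hl2 ho2 he' hπ v
          unfold distribution at this ⊢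
          rwa [shuffles_comm σ π] at this
      ext v
      have e1 := dist_eq_aux π σ hl ho (hflip π σ hl ho hσ0 hπ0) v
      have e2 := dist_eq_aux π' σ' hl' ho' (hflip π' σ' hl' ho' hσ0' hπ0') v
      rw [← hcard] at e2
      omega
  · rw [dist_even π σ ho, dist_even π' σ' (by rw [← hlen]; exact ho), hcard]

lemma not_descent_cst : ¬ IsCyclicDescentStatistic cst := by
  intro h
  have h1 := h [1, 3, 2, 4, 5] [1, 4, 2, 3, 5] (by unfold IsPerm; decide) (by unfold IsPerm; decide)
    rfl (by decide)
  rw [cst_coe, cst_coe] at h1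
  unfold cstList at h1
  rw [if_pos (by decide), if_pos (by decide)] at h1
  have h2 : sgn [1, 3, 2, 4, 5] = -1 := by
    have e : sgn ([1, 2, 3, 4, 5].map (Equiv.swap 2 3)) = - sgn [1, 2, 3, 4, 5] :=
      sgn_swap [1, 2, 3, 4, 5] (by decide) 2 3 (by decide) (by decide) (by decide)
    have e2 : [1, 2, 3, 4, 5].map (Equiv.swap 2 3) = [1, 3, 2, 4, 5] := by decide
    have e3 : sgn [1, 2, 3, 4, 5] = 1 := by
      unfold sgn sgnF
      rw [sort_unique _ (get_injective _ (by decide)) 1 (by decide)]
      simp
    rw [← e2, e, e3]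
  have h3 : sgn [1, 4, 2, 3, 5] = 1 := by
    have e : sgn ([1, 3, 2, 4, 5].map (Equiv.swap 3 4)) = - sgn [1, 3, 2, 4, 5] :=
      sgn_swap [1, 3, 2, 4, 5] (by decide) 3 4 (by decide) (by decide) (by decide)
    have e2 : [1, 3, 2, 4, 5].map (Equiv.swap 3 4) = [1, 4, 2, 3, 5] := by decide
    rw [← e2, e, h2]; rfl
  rw [h2, h3] at h1
  exact absurd h1 (by decide)

/-- There is a cyclic shuffle-compatible cyclic permutation statistic which is not a cyclic
descent statistic. -/
theorem result : ∃ cst : Cycle ℕ → ℤ,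
    IsCyclicStatistic cst ∧ CyclicShuffleCompatible cst ∧ ¬ IsCyclicDescentStatistic cst :=
  ⟨cst, isCyclicStatistic_cst, compatible_cst, not_descent_cst⟩

end Pool.Agent.Results.MP_f664e7_co.SignStatistic
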